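import Mathlib
import Pool.Agent.H29.SFT

set_option autoImplicit false

namespace Pool.Agent.Results.MP_bb9d96_lc.Exponential
open Set Filter Pool.Agent.H29.SFT

/-- Least number of vertices of a deterministic presentation. -/
noncomputable def sd {A : Type} (X : Set (ℤ → A)) : ℕ :=
  sInf {n | ∃ (V : Type) (_ : Fintype V) (E : V → A → V → Prop),
    Fintype.card V = n ∧ Det E ∧ shift E = X}

abbrev A (k : ℕ) : Type := Fin (k + 1) ⊕ Bool

def Seen {k : ℕ} (x : ℤ → A k) (l : Fin (k + 1)) (q : ℤ) : Prop :=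
  ∃ p < q, x p = .inl l ∧ ∀ t, p < t → t < q → ∃ m ≤ l, x t = .inl m

def Er {k : ℕ} (x : ℤ → A k) (l : Fin (k + 1)) (i : ℤ) : Prop :=
  ∃ q < i, x q = .inl l ∧ Seen x l q

def X (k : ℕ) : Set (ℤ → A k) :=
  {x | (∀ i, x (i + 1) = .inr false → x i = .inr false) ∧
    (∀ i, x i = .inr true → x (i + 1) = .inr true) ∧
    ∀ i j, x i = .inr false → x j = .inr true → ∃ l q, Er x l q}

theorem down {k : ℕ} {x : ℤ → A k} (h : ∀ i, x (i + 1) = .inr false → x i = .inr false)
    {i j : ℤ} (hij : i ≤ j) (hj : x j = .inr false) : x i = .inr false := by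
  induction i, hij using Int.leInductionDown with
  | base => exact hj
  | pred i _ ih => exact h _ (by rwa [sub_add_cancel])

theorem up {k : ℕ} {x : ℤ → A k} (h : ∀ i, x i = .inr true → x (i + 1) = .inr true)
    {i j : ℤ} (hij : i ≤ j) (hi : x i = .inr true) : x j = .inr true := by
  induction j, hij using Int.leInduction with
  | base => exact hi
  | succ j _ ih => exact h _ ih

abbrev V (k : ℕ) : Type := Option (Fin (k + 1) × Fin 4)

def δ {k : ℕ} : V k → A k → Option (V k)
  | none, c => if c = .inr true then some none else none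
  | some (l, s), .inr false => if s = 0 then some (some (l, 0)) else none
  | some (_, s), .inr true => if s = 3 then some none else none
  | some (l, s), .inl m => some (some (l, if s = 3 then 3 else if m = l then
      (if s = 2 then 3 else 2) else if s = 2 ∧ m < l then 2 else 1))

def E (k : ℕ) (p : V k) (c : A k) (q : V k) : Prop := δ p c = some q

theorem seen_succ {k : ℕ} (x : ℤ → A k) (l : Fin (k + 1)) (q : ℤ) :
    Seen x l (q + 1) ↔ x q = .inl l ∨ (Seen x l q ∧ ∃ m ≤ l, x q = .inl m) := by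
  constructor
  · rintro ⟨p, hp, h1, h2⟩
    rcases eq_or_lt_of_le (Int.lt_add_one_iff.1 hp) with rfl | h
    · exact Or.inl h1
    · exact Or.inr ⟨⟨p, h, h1, fun t a b => h2 t a (by omega)⟩, h2 q h (by omega)⟩
  · rintro (h | ⟨⟨p, hp, h1, h2⟩, h3⟩)
    · exact ⟨q, by omega, h, fun t a b => by omega⟩
    · refine ⟨p, by omega, h1, fun t a b => ?_⟩
      rcases eq_or_lt_of_le (Int.lt_add_one_iff.1 b) with rfl | h
      · exact h3
      · exact h2 t a h

theorem er_succ {k : ℕ} (x : ℤ → A k) (l : Fin (k + 1)) (q : ℤ) :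
    Er x l (q + 1) ↔ Er x l q ∨ (x q = .inl l ∧ Seen x l q) := by
  constructor
  · rintro ⟨p, hp, h1⟩
    rcases eq_or_lt_of_le (Int.lt_add_one_iff.1 hp) with rfl | h
    · exact Or.inr h1
    · exact Or.inl ⟨p, h, h1⟩
  · rintro (⟨p, hp, h⟩ | h)
    · exact ⟨p, by omega, h⟩
    · exact ⟨q, by omega, h⟩

theorem sub1 (k : ℕ) : shift (E k) ⊆ X k := by
  rintro x ⟨v, hv⟩
  have hb : ∀ i, x i = .inr true → v (i + 1) = none := fun i hi => by
    have := hv i
    rw [E, hi] at this
    rcases h : v i with _ | ⟨l, s⟩ <;> rw [h] at this <;> simp [δ] at this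
    · exact this.symm
    · exact this.2.symm
  have hb2 : ∀ i, v i = none → x i = .inr true := fun i hi => by
    have := hv i
    rw [E, hi] at this
    simp [δ] at this
    exact this.1
  have ha : ∀ i, x i = .inr false → ∃ l, v i = some (l, 0) := fun i hi => by
    have := hv i
    rw [E, hi] at this
    rcases h : v i with _ | ⟨l, s⟩ <;> rw [h] at this <;> simp [δ] at this
    exact ⟨l, by rw [this.1]⟩
  refine ⟨fun i hi => ?_, fun i hi => hb2 _ (hb i hi), fun i j hi hj => ?_⟩
  · obtain ⟨l, hl⟩ := ha _ hi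
    have := hv i
    rw [E, hl] at this
    rcases h : v i with _ | ⟨l, s⟩ <;> rcases h' : x i with m | _ | _ <;> rw [h, h'] at this <;>
      simp [δ] at this ⊢
    have := this.2
    split_ifs at this <;> simp at this
  · have inv : ∀ t, i ≤ t → (v t = none → ∃ l q, Er x l q) ∧ ∀ l s, v t = some (l, s) →
        (s = 3 → Er x l t) ∧ (s = 2 → Seen x l t) := by
      intro t ht
      induction t, ht using Int.leInduction with
      | base =>
        obtain ⟨l, hl⟩ := ha _ hi
        simp [hl]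
      | succ t _ ih =>
        have := hv t
        rw [E] at this
        rcases h : v t with _ | ⟨l, s⟩ <;> rcases h' : x t with m | _ | _ <;>
          rw [h, h'] at this <;> simp [δ] at this
        · rw [← this]; exact ⟨fun _ => ih.1 h, by simp⟩
        · obtain ⟨i3, i2⟩ := ih.2 l s h
          rw [← this]
          refine ⟨by simp, ?_⟩
          intro l' s' he
          simp only [Option.some.injEq, Prod.mk.injEq] at he
          obtain ⟨rfl, rfl⟩ := he
          rw [er_succ, seen_succ, h']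
          split_ifs with c1 c2 c3 c4
          · exact ⟨fun _ => Or.inl (i3 c1), by simp⟩
          · exact ⟨fun _ => Or.inr ⟨by rw [c2], i2 c3⟩, by simp⟩
          · exact ⟨by simp, fun _ => Or.inl (by rw [c2])⟩
          · exact ⟨by simp, fun _ => Or.inr ⟨i2 c4.1, m, c4.2.le, rfl⟩⟩
          · simp
        · rw [← this.2]; simp
        · rw [← this.2]; exact ⟨fun _ => ⟨l, t, (ih.2 l s h).1 this.1⟩, by simp⟩
    exact (inv (max i j + 1) (by omega)).1
      (hb _ (up (fun i hi => hb2 _ (hb i hi)) (le_max_right _ _) hj))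

theorem sub2 (k : ℕ) : X k ⊆ shift (E k) := by
  classical
  rintro x ⟨h1, h2, h3⟩
  by_cases ha : ∃ i, x i = .inr false
  swap
  · push Not at ha
    refine ⟨fun t => if x (t - 1) = .inr true then none else some (0, 3), fun t => ?_⟩
    have := h2 (t - 1)
    rw [sub_add_cancel] at this
    simp only [E, add_sub_cancel_right]
    rcases h' : x t with m | _ | _
    · rw [if_neg fun h => by simp [this h] at h']; simp [δ]
    · exact absurd h' (ha t)
    · split_ifs <;> simp_all [δ]
  obtain ⟨i0, hi0⟩ := ha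
  have : ∃ l, ∀ j, x j = .inr true → Er x l j := by
    by_cases hb : ∃ j, x j = .inr true
    · obtain ⟨j0, hj0⟩ := hb
      obtain ⟨l, q, p, -, a, b⟩ := h3 i0 j0 hi0 hj0
      refine ⟨l, fun j hj => ⟨p, not_le.1 fun h => ?_, a, b⟩⟩
      simp [up h2 h hj] at a
    · exact ⟨0, fun j hj => absurd ⟨j, hj⟩ hb⟩
  obtain ⟨l, hl⟩ := this
  refine ⟨fun t => if x (t - 1) = .inr true then none else some (l, if x (t - 1) = .inr false
    then 0 else if Er x l t then 3 else if Seen x l t then 2 else 1), fun t => ?_⟩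
  have a1 := h1 (t - 1)
  have a2 := h2 (t - 1)
  rw [sub_add_cancel] at a1 a2
  have a3 : x (t - 1) = .inr false → ¬ Er x l t ∧ ¬ Seen x l t := fun h =>
    ⟨fun ⟨p, hp, b, _⟩ => by simp [down h1 (show p ≤ t - 1 by omega) h] at b,
      fun ⟨p, hp, b, _⟩ => by simp [down h1 (show p ≤ t - 1 by omega) h] at b⟩
  simp only [E, add_sub_cancel_right, er_succ, seen_succ]
  rcases h' : x t with m | _ | _
  · rw [if_neg fun h => by simp [a2 h] at h']
    by_cases c0 : x (t - 1) = .inr false
    · obtain ⟨b1, b2⟩ := a3 c0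
      by_cases c3 : m = l <;> simp [δ, c0, b1, b2, c3]
    · by_cases c1 : Er x l t
      · simp [δ, c0, c1]
      · by_cases c2 : Seen x l t
        · rcases lt_trichotomy m l with c3 | c3 | c3
          · simp [δ, c0, c1, c2, c3, c3.ne, c3.le]
          · simp [δ, c0, c1, c2, c3]
          · simp [δ, c0, c1, c2, c3.ne', c3.not_ge, c3.not_gt]
        · by_cases c3 : m = l <;> simp [δ, c0, c1, c2, c3]
  · simp [δ, a1 h']
  · have := hl t h'
    by_cases c0 : x (t - 1) = .inr false
    · exact absurd this (a3 c0).1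
    · split_ifs <;> simp_all [δ]

theorem pigeon {k : ℕ} (x : ℤ → A k) (K : ℕ) : ∀ i : ℤ,
    (∀ t, i ≤ t → t < i + 2 ^ K → ∃ m : Fin (k + 1), m.1 < K ∧ x t = .inl m) → ∃ l q, Er x l q := by
  induction K with
  | zero => exact fun i h => by obtain ⟨m, hm, -⟩ := h i le_rfl (by omega); omega
  | succ K ih =>
    intro i h
    have h0 : (0 : ℤ) < 2 ^ K := by positivity
    rw [pow_succ] at h
    by_contra hc
    have k1 := fun i' h' => hc (ih i' h')
    simp only [imp_false, not_forall, not_exists, not_and] at k1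
    obtain ⟨p, p1, p2, p3⟩ := k1 i
    obtain ⟨q, q1, q2, q3⟩ := k1 (i + 2 ^ K)
    obtain ⟨m, hm, hp⟩ := h p p1 (by omega)
    obtain ⟨m', hm', hq⟩ := h q (by omega) (by omega)
    have e1 : m.1 = K := by by_contra h4; exact p3 m (by omega) hp
    have e2 : m'.1 = K := by by_contra h4; exact q3 m' (by omega) hq
    obtain rfl : m = m' := Fin.ext (e1.trans e2.symm)
    refine hc ⟨m, q + 1, q, by omega, hq, p, by omega, hp, fun t a b => ?_⟩
    obtain ⟨m', hm', ht⟩ := h t (by omega) (by omega)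
    exact ⟨m', Fin.le_def.2 (by omega), ht⟩

theorem sft (k : ℕ) : MStep (2 ^ (k + 1) + 1) (X k) := by
  refine step_iff.2 fun x hx => ?_
  have h1 : ∀ i, x (i + 1) = .inr false → x i = .inr false := fun i hi => by
    obtain ⟨y, hy, c, hc⟩ := hx i
    have a0 := hc 0 (Nat.zero_le _)
    have a1 := hc 1 (Nat.le_add_left _ _)
    simp only [Nat.cast_zero, add_zero, Nat.cast_one] at a0 a1
    rw [← a0]; exact hy.1 c (a1.trans hi)
  have h2 : ∀ i, x i = .inr true → x (i + 1) = .inr true := fun i hi => by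
    obtain ⟨y, hy, c, hc⟩ := hx i
    have a0 := hc 0 (Nat.zero_le _)
    have a1 := hc 1 (Nat.le_add_left _ _)
    simp only [Nat.cast_zero, add_zero, Nat.cast_one] at a0 a1
    rw [← a1]; exact hy.2.1 c (a0.trans hi)
  refine ⟨h1, h2, fun i j hi hj => ?_⟩
  obtain ⟨i, hi, hm⟩ := Int.exists_greatest_of_bdd (P := fun t => x t = .inr false)
    ⟨j, fun t ht => not_lt.1 fun h => by simp [up h2 h.le hj] at ht⟩ ⟨i, hi⟩
  by_cases hb : ∃ t, i + 1 ≤ t ∧ t < i + 1 + 2 ^ (k + 1) ∧ x t = .inr true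
  · obtain ⟨t, t1, t2, ht⟩ := hb
    obtain ⟨y, hy, c, hc⟩ := hx i
    have hc' : ∀ u, i ≤ u → u ≤ t → y (u + (c - i)) = x u := fun u a b => by
      have := hc (u - i).toNat (by zify; rw [Int.toNat_of_nonneg (by omega)]; omega)
      rw [Int.toNat_of_nonneg (by omega), add_sub_cancel] at this
      rw [← this]; congr 1; ring
    have b1 := (hc' i le_rfl (by omega)).trans hi
    have b2 := (hc' t (by omega) le_rfl).trans ht
    obtain ⟨l, -, q, -, c1, p, hp, c2, c3⟩ := hy.2.2 _ _ b1 b2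
    have d1 : i + (c - i) < p := not_le.1 fun h => by simp [down hy.1 h b1] at c2
    have d2 : q < t + (c - i) := not_le.1 fun h => by simp [up hy.2.1 h b2] at c1
    refine ⟨l, q - (c - i) + 1, q - (c - i), by omega, ?_, p - (c - i), by omega, ?_,
      fun u a b => ?_⟩
    · rw [← hc' _ (by omega) (by omega), sub_add_cancel, c1]
    · rw [← hc' _ (by omega) (by omega), sub_add_cancel, c2]
    · rw [← hc' _ (by omega) (by omega)]
      exact c3 _ (by omega) (by omega)
  · refine pigeon x (k + 1) (i + 1) fun t a b => ?_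
    rcases h : x t with m | _ | _
    · exact ⟨m, m.2, rfl⟩
    · have := hm t h; omega
    · exact absurd ⟨t, a, b, h⟩ hb

theorem ruler (k : ℕ) : ∃ f : ℤ → Fin (k + 1), ∀ p q, 0 < p → p < q → q < 2 ^ (k + 1) →
    f p = f q → ∃ t, p < t ∧ t < q ∧ f p < f t := by
  have : ∀ t : ℤ, ∃ l : Fin (k + 1), 0 < t → t < 2 ^ (k + 1) → ∃ a, Odd a ∧ t = 2 ^ l.1 * a := by
    intro t
    by_cases h : 0 < t ∧ t < 2 ^ (k + 1)
    · obtain ⟨l, a, ha, hl⟩ := Nat.exists_eq_two_pow_mul_odd (n := t.toNat) (by omega)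
      have h2 : t = 2 ^ l * (a : ℤ) := by zify at hl; omega
      have h3 : (2 : ℤ) ^ l ≤ t := by
        have : (1 : ℤ) ≤ a := by exact_mod_cast ha.pos
        rw [h2]; exact le_mul_of_one_le_right (by positivity) this
      exact ⟨⟨l, (pow_lt_pow_iff_right₀ one_lt_two).1 (h3.trans_lt h.2)⟩,
        fun _ _ => ⟨a, ha.natCast, h2⟩⟩
    · exact ⟨0, fun a b => absurd ⟨a, b⟩ h⟩
  choose f hf using this
  refine ⟨f, fun p q h0 h1 h2 h3 => ?_⟩
  obtain ⟨a, ⟨a', ha⟩, hp⟩ := hf p h0 (h1.trans h2)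
  obtain ⟨b, ⟨b', hb⟩, hq⟩ := hf q (h0.trans h1) h2
  rw [← h3] at hq
  have h4 : (0 : ℤ) < 2 ^ (f p).1 := by positivity
  have h5 : a < b := lt_of_mul_lt_mul_left (hp ▸ hq ▸ h1) h4.le
  have h6 : p + 2 ^ (f p).1 < q := by
    have : 2 ^ (f p).1 * (a + 1) < 2 ^ (f p).1 * b := mul_lt_mul_of_pos_left (by omega) h4
    linarith
  refine ⟨p + 2 ^ (f p).1, by omega, h6, not_le.1 fun h => ?_⟩
  obtain ⟨c, hc, ht⟩ := hf (p + 2 ^ (f p).1) (by omega) (h6.trans h2)
  obtain ⟨d, hd⟩ := Nat.exists_eq_add_of_le (Fin.le_def.1 h)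
  generalize (f (p + 2 ^ (f p).1)).1 = e at *
  have h7 : c = 2 * (2 ^ d * (a' + 1)) := by
    refine mul_left_cancel₀ (a := (2 : ℤ) ^ e) (by positivity) ?_
    rw [← ht]
    nth_rewrite 1 [hp]
    rw [hd, ha]; ring
  exact Int.not_even_iff_odd.2 hc ⟨_, h7.trans (two_mul _)⟩

theorem m_ge (k : ℕ) : 2 ^ (k + 1) ≤ minStep (X k) := by
  obtain ⟨f, hf⟩ := ruler k
  have h0 : (0 : ℤ) < 2 ^ (k + 1) := by positivity
  refine le_minStep ⟨_, sft k⟩
    (fun t => if t ≤ 0 then .inr false else if t < 2 ^ (k + 1) then .inl (f t) else .inr true)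
    (fun h => ?_) fun i => ?_
  · obtain ⟨l, -, q, -, c1, p, hp, c2, c3⟩ := h.2.2 0 (2 ^ (k + 1)) (by simp) (by simp)
    dsimp only at c1 c2
    split_ifs at c1 c2 with a1 a2 a3 a4
    obtain ⟨t, t1, t2, t3⟩ := hf p q (by omega) hp a2 (Sum.inl.inj (c2.trans c1.symm))
    obtain ⟨m, hm, h⟩ := c3 t t1 t2
    dsimp only at h
    rw [if_neg (by omega), if_pos (by omega)] at h
    rw [Sum.inl.inj h, Sum.inl.inj c2] at t3
    exact absurd hm (not_le.2 t3)
  · rcases le_or_gt i 0 with hi | hi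
    · refine ⟨fun t => if t ≤ 0 then .inr false else .inl (f t), ⟨fun t => ?_, fun t => ?_,
        fun s t => ?_⟩, fun j hj => ?_⟩
      · dsimp only; split_ifs <;> simp; omega
      · dsimp only; split_ifs <;> simp
      · dsimp only; split_ifs <;> simp
      · have : i + j < 2 ^ (k + 1) := by zify at hj; omega
        simp [this]
    · refine ⟨fun t => if t < 2 ^ (k + 1) then .inl (f t) else .inr true, ⟨fun t => ?_, fun t => ?_,
        fun s t => ?_⟩, fun j hj => ?_⟩
      · dsimp only; split_ifs <;> simp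
      · dsimp only; split_ifs <;> simp; omega
      · dsimp only; split_ifs <;> simp
      · have : ¬ i + j ≤ 0 := by omega
        simp [this]

theorem s_mem (k : ℕ) : 4 * k + 5 ∈ {n | ∃ (W : Type) (_ : Fintype W) (F : W → A k → W → Prop),
    Fintype.card W = n ∧ Det F ∧ shift F = X k} :=
  ⟨V k, inferInstance, E k, by simp; ring, fun _ _ _ _ h h' => Option.some.inj (h.symm.trans h'),
    Subset.antisymm (sub1 k) (sub2 k)⟩

theorem s_ge (k : ℕ) : k + 1 ≤ 2 ^ sd (X k) := by
  classical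
  obtain ⟨W, _, F, h1, -, h2⟩ := Nat.sInf_mem ⟨_, s_mem k⟩
  let T : Fin (k + 1) → Set W := fun m => {q | ∃ v : ℤ → W, (∀ t < 0, F (v t) (.inr false) (v (t + 1))) ∧
    F (v 0) (.inl m) (v 1) ∧ v 1 = q}
  let x : Fin (k + 1) → Fin (k + 1) → ℤ → A k := fun i j t =>
    if t < 0 then .inr false else if t = 0 then .inl i else if t = 1 then .inl j else .inr true
  have hT : Function.Injective T := by
    intro i j hij
    have : x i i ∈ X k := by
      refine ⟨fun t => ?_, fun t => ?_, fun _ _ _ _ => ⟨i, 2, 1, by omega, by simp [x], 0, by omega,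
        by simp [x], fun t a b => by omega⟩⟩
      · simp only [x]; split_ifs <;> simp <;> omega
      · simp only [x]; split_ifs <;> simp <;> omega
    rw [← h2] at this
    obtain ⟨v, hv⟩ := this
    obtain ⟨u, u1, u2, u3⟩ : v 1 ∈ T j := by
      rw [← hij]
      exact ⟨v, fun t ht => by simpa [x, ht] using hv t, by simpa [x] using hv 0, rfl⟩
    have : x j i ∈ X k := by
      rw [← h2]
      refine ⟨fun t => if t ≤ 0 then u t else v t, fun t => ?_⟩
      rcases lt_trichotomy t 0 with h | rfl | h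
      · simpa [x, h, h.le, show t + 1 ≤ 0 by omega] using u1 t h
      · simpa [x, ← u3] using u2
      · simpa [x, h.ne', show ¬ t < 0 by omega, show ¬ t ≤ 0 by omega,
          show ¬ t + 1 ≤ 0 by omega] using hv t
    obtain ⟨l, -, q, -, c1, p, hp, c2, -⟩ := this.2.2 (-1) 2 (by simp [x]) (by simp [x])
    simp only [x] at c1 c2
    split_ifs at c1 c2 <;> first | omega | exact Sum.inl.inj (c1.trans c2.symm)
  have := Fintype.card_le_of_injective T hT
  rwa [Fintype.card_fin, Fintype.card_set, h1] at this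

theorem result : ∃ c : ℝ, 0 < c ∧ ∃ (B : ℕ → Type) (_ : ∀ k, Fintype (B k))
    (Y : ∀ k, Set (ℤ → B k)), (∀ k, ∃ M, MStep M (Y k)) ∧
    Tendsto (fun k => sd (Y k)) atTop atTop ∧
    ∀ k, (2 : ℝ) ^ (c * (sd (Y k) : ℝ)) ≤ minStep (Y k) := by
  refine ⟨1 / 5, by norm_num, A, fun _ => inferInstance, X, fun k => ⟨_, sft k⟩,
    tendsto_atTop_atTop.2 fun N => ⟨2 ^ N, fun k hk => ?_⟩, fun k => ?_⟩
  · exact (pow_le_pow_iff_right₀ one_lt_two).1 (hk.trans ((Nat.le_succ k).trans (s_ge k)))
  · have h1 : (sd (X k) : ℝ) ≤ 4 * k + 5 := by exact_mod_cast Nat.sInf_le (s_mem k)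
    have h2 : ((2 : ℝ) ^ (k + 1)) ≤ minStep (X k) := by exact_mod_cast m_ge k
    refine le_trans ?_ h2
    rw [← Real.rpow_natCast]
    refine Real.rpow_le_rpow_of_exponent_le one_le_two ?_
    have h4 : (0 : ℝ) ≤ k := Nat.cast_nonneg _
    push_cast
    linarith

end Pool.Agent.Results.MP_bb9d96_lc.Exponential
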